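import Pool.Agent.N207.GS.Om
import Pool.Agent.Y119.PLM.Main

/-!
# Relations at almost all points are invariant under the connected monodromy
-/

set_option autoImplicit false
set_option linter.unusedSectionVars false

open NumberField Filter Matrix

namespace Pool.Agent.N207.GS

open Pool.Agent.Y890.MV

variable {X : Type} [Fintype X] {n r : ℕ}

/-- the indices -/
abbrev Sg (n r : ℕ) : Type := (Fin n × Fin n) ⊕ Fin r

/-- the point of the affine space given by a matrix and a vector -/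
def pt (A : Matrix (Fin n) (Fin n) ℂ) (t : Fin r → ℂ) : Sg n r → ℂ := Sum.elim (fun y => A y.1 y.2) t

/-- the functions -/
def fn (Y : (X → ℂ) → Matrix (Fin n) (Fin n) ℂ) (θ : (X → ℂ) → Fin r → ℂ) : Sg n r → (X → ℂ) → ℂ :=
  fun i x => pt (Y x) (θ x) i

theorem fn_pt (Y : (X → ℂ) → Matrix (Fin n) (Fin n) ℂ) (θ : (X → ℂ) → Fin r → ℂ) (x : X → ℂ) :
    (fun i => fn Y θ i x) = pt (Y x) (θ x) := rfl

theorem fn_an {U : Set (X → ℂ)} {Y : (X → ℂ) → Matrix (Fin n) (Fin n) ℂ} {θ : (X → ℂ) → Fin r → ℂ}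
    (hY : ∀ a b, AnalyticOnNhd ℂ (fun x => Y x a b) U) (hθ : ∀ i, AnalyticOnNhd ℂ (fun x => θ x i) U) :
    ∀ i, AnalyticOnNhd ℂ (fn Y θ i) U := by
  rintro (y | i)
  · exact hY _ _
  · exact hθ i

/-- substitution of `M g` and `t` -/
noncomputable def pb (M : Matrix (Fin n) (Fin n) ℂ) (t : Fin r → ℂ) :
    MvPolynomial (Sg n r) ℂ →+* MvPolynomial (Fin n × Fin n) ℂ :=
  MvPolynomial.eval₂Hom MvPolynomial.C (Sum.elim (fun y => ∑ c, MvPolynomial.C (M y.1 c) * MvPolynomial.X (c, y.2))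
    fun i => MvPolynomial.C (t i))

theorem pb_eval (M : Matrix (Fin n) (Fin n) ℂ) (t : Fin r → ℂ) (P : MvPolynomial (Sg n r) ℂ)
    (g : Matrix (Fin n) (Fin n) ℂ) :
    MvPolynomial.eval (fun y : Fin n × Fin n => g y.1 y.2) (pb M t P) = MvPolynomial.eval (pt (M * g) t) P := by
  have h : (MvPolynomial.eval (fun y : Fin n × Fin n => g y.1 y.2)).comp (pb M t) =
      MvPolynomial.eval (pt (M * g) t) := by
    apply MvPolynomial.ringHom_ext
    · intro a
      simp [pb]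
    · rintro (y | i)
      · simp only [RingHom.comp_apply, pb, MvPolynomial.eval₂Hom_X', Sum.elim_inl, map_sum, map_mul,
          MvPolynomial.eval_C, MvPolynomial.eval_X]
        simp [pt, Matrix.mul_apply]
      · simp [pb, pt]
  exact RingHom.congr_fun h P

/-- the value of a relation as an evaluation -/
theorem evX_map {σ : Type} (x : X → ℂ) (a : σ → ℂ) (p : MvPolynomial σ (MvPolynomial X ℂ)) :
    evX x a p = MvPolynomial.eval a (MvPolynomial.map (MvPolynomial.eval x) p) := by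
  rw [MvPolynomial.eval_map]
  rfl

/-- **The orbit lies in the fibre.** -/
theorem orbit {U : Set (X → ℂ)} {Y : (X → ℂ) → Matrix (Fin n) (Fin n) ℂ} {θ : (X → ℂ) → Fin r → ℂ}
    (hU : IsPreconnected U)
    (hY : ∀ a b, AnalyticOnNhd ℂ (fun x => Y x a b) U) (hθ : ∀ i, AnalyticOnNhd ℂ (fun x => θ x i) U)
    (M : Matrix (Fin n) (Fin n) ℂ → Prop)
    (hM : ∀ g, M g → ∃ (W : Set (X → ℂ)) (F : (X → ℂ) → Matrix (Fin n) (Fin n) ℂ) (τ : (X → ℂ) → Fin r → ℂ),
      IsOpen W ∧ W.Nonempty ∧ W ⊆ U ∧ (∀ x ∈ W, F x = Y x * g ∧ τ x = θ x) ∧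
      ∀ p : MvPolynomial (Sg n r) (MvPolynomial X ℂ), (∀ z ∈ U, evM (fn Y θ) z p = 0) →
        ∀ z ∈ W, evM (fn F τ) z p = 0)
    {g : Matrix (Fin n) (Fin n) ℂ}
    (hg : ∀ R : MvPolynomial (Fin n × Fin n) ℂ, (∀ h, M h → MvPolynomial.eval (fun y => h y.1 y.2) R = 0) →
      MvPolynomial.eval (fun y => g y.1 y.2) R = 0) {x : X → ℂ} (hx : x ∈ U) :
    pt (Y x * g) (θ x) ∈ Fib U (fn Y θ) x := by
  intro p hp
  rw [evX_map, ← pb_eval]
  apply hg
  intro h hh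
  rw [pb_eval, ← evX_map]
  obtain ⟨W, F, τ, hW, ⟨x0, hx0⟩, hWU, h1, h2⟩ := hM h hh
  -- the function `Y h`
  have h3 : ∀ i, AnalyticOnNhd ℂ (fn (fun x => Y x * h) θ i) U := by
    apply fn_an _ hθ
    intro a b
    simp only [Matrix.mul_apply]
    apply Finset.analyticOnNhd_fun_sum
    intro c _
    exact (hY a c).mul analyticOnNhd_const
  have h4 := evM_an h3 p
  have h5 := h4.eqOn_zero_of_preconnected_of_eventuallyEq_zero hU (hWU hx0) (by
    filter_upwards [hW.mem_nhds hx0] with z hz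
    have h6 := h2 p hp z hz
    have h7 : evM (fn F τ) z p = evM (fn (fun x => Y x * h) θ) z p := by
      rw [evM_eq, evM_eq]
      congr 1
      change pt (F z) (τ z) = pt (Y z * h) (θ z)
      rw [(h1 z hz).1, (h1 z hz).2]
    rw [← h7]
    exact h6)
  have h6 : evM (fn (fun x => Y x * h) θ) x p = 0 := h5 hx
  rw [evM_eq] at h6
  exact h6

/-- the image of an irreducible set of matrices -/
theorem irr_orbit (M : Matrix (Fin n) (Fin n) ℂ) (t : Fin r → ℂ) {S : Set (Matrix (Fin n) (Fin n) ℂ)}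
    (hS : ∀ P Q : MvPolynomial (Fin n × Fin n) ℂ,
      (∀ g ∈ S, MvPolynomial.eval (fun y => g y.1 y.2) P * MvPolynomial.eval (fun y => g y.1 y.2) Q = 0) →
      (∀ g ∈ S, MvPolynomial.eval (fun y => g y.1 y.2) P = 0) ∨
        ∀ g ∈ S, MvPolynomial.eval (fun y => g y.1 y.2) Q = 0) :
    Irr ((fun g => pt (M * g) t) '' S) := by
  intro P Q h
  rcases hS (pb M t P) (pb M t Q) (fun g hg => by
    rw [pb_eval, pb_eval]
    exact h _ ⟨g, hg, rfl⟩) with h1 | h1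
  · left
    rintro _ ⟨g, hg, rfl⟩
    rw [← pb_eval]
    exact h1 g hg
  · right
    rintro _ ⟨g, hg, rfl⟩
    rw [← pb_eval]
    exact h1 g hg

/-- **The exceptional points**: some relation does not hold on some irreducible subset of the fibre through the point -/
def ExcS (U : Set (X → ℂ)) (Y : (X → ℂ) → Matrix (Fin n) (Fin n) ℂ) (θ : (X → ℂ) → Fin r → ℂ)
    (K : Type) [Field K] [NumberField K] (io : K →+* ℂ) (k : ℕ) (ξ : Fin k → ℂ) (T : ℝ) : Set (X → K) :=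
  {s | (∀ i, Y120.HtLe K T (s i)) ∧ (fun i => io (s i)) ∈ InnerM U k ∧ ∃ R : MvPolynomial (Sg n r) ℂ,
    (∀ y, R.degreeOf y ≤ k) ∧
    (∀ m, ∃ c : Fin k → 𝓞 K, (∀ i (φ : K →+* ℂ), ‖φ (c i : K)‖ ≤ T ^ (k : ℝ)) ∧
      R.coeff m = ∑ i, ξ i * io (c i : K)) ∧
    MvPolynomial.eval (pt (Y fun i => io (s i)) (θ fun i => io (s i))) R = 0 ∧
    ∃ S : Set (Sg n r → ℂ), Irr S ∧ pt (Y fun i => io (s i)) (θ fun i => io (s i)) ∈ S ∧
      S ⊆ Fib U (fn Y θ) (fun i => io (s i)) ∧ ∃ a ∈ S, MvPolynomial.eval a R ≠ 0}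

theorem excS_few [DecidableEq X] [Nonempty X] {U : Set (X → ℂ)} {Y : (X → ℂ) → Matrix (Fin n) (Fin n) ℂ}
    {θ : (X → ℂ) → Fin r → ℂ} (hU : IsPreconnected U) (hUo : IsOpen U) (hne : U.Nonempty)
    (hY : ∀ a b, AnalyticOnNhd ℂ (fun x => Y x a b) U) (hθ : ∀ i, AnalyticOnNhd ℂ (fun x => θ x i) U) :
    Few (X := X) fun K _ _ io k ξ T => ExcS U Y θ K io k ξ T := by
  refine (comp_few hU hUo hne (fn_an hY hθ)).mono fun K _ _ io k ξ T => ?_
  rintro s ⟨h1, h2, R, h3, h4, h5, S, h6, h7, h8, a, h9, h10⟩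
  choose c hc hc' using h4
  refine ⟨h1, h2, fun l => c (Finsupp.equivFunOnFinite.symm fun y => (l y : ℕ)), fun l i φ => hc _ i φ, ?_, S, h6, h7,
    h8, a, h9, ?_⟩
  · rw [← h5, ← Y119.PLM.sum_expM h3]
    refine Finset.sum_congr rfl fun l _ => ?_
    rw [hc']
    rfl
  · rw [← Y119.PLM.sum_expM h3] at h10
    intro h
    apply h10
    rw [← h]
    refine Finset.sum_congr rfl fun l _ => ?_
    rw [hc']

end Pool.Agent.N207.GS
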