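import Pool.Agent.Y890.SP.Field

/-!
# The generic linear combination of elements of a finitely generated field satisfies a monic equation, up to a
denominator which does not depend on the coefficients
-/

set_option autoImplicit false
set_option linter.unusedSectionVars false

open Polynomial

namespace Pool.Agent.N207.GS

open Pool.Agent.Y890.SP

variable {A L : Type} [CommRing A] [IsDomain A] [Field L] [Algebra A L] [FaithfulSMul A L]

theorem integral_C {S Λ : Type} [CommRing S] (φ : S →+* L) {b : L} (hb : φ.IsIntegralElem b) :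
    (MvPolynomial.map (σ := Λ) φ).IsIntegralElem (MvPolynomial.C b) := by
  obtain ⟨p, hp, hp0⟩ := hb
  refine ⟨p.map MvPolynomial.C, hp.map _, ?_⟩
  rw [eval₂_map]
  have h1 : (MvPolynomial.map (σ := Λ) φ).comp MvPolynomial.C = MvPolynomial.C.comp φ := by
    ext a
    simp
  rw [h1, ← Polynomial.hom_eval₂, hp0, map_zero]

theorem exists_char {σ Λ : Type} [Fintype σ] [Fintype Λ] (f : σ → L)
    (hfrac : ∀ l : L, ∃ p q : MvPolynomial σ A, MvPolynomial.aeval f q ≠ 0 ∧
      MvPolynomial.aeval f q * l = MvPolynomial.aeval f p) (lm : Λ → MvPolynomial σ A) :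
    ∃ (I : Type) (_ : Fintype I) (_ : DecidableEq I) (ι : I → σ) (D : MvPolynomial I A)
      (q : Polynomial (MvPolynomial Λ (MvPolynomial I A))), AlgebraicIndependent A (f ∘ ι) ∧ D ≠ 0 ∧ q.Monic ∧
      eval₂ (MvPolynomial.map (evI (f ∘ ι)))
        (∑ l, MvPolynomial.X l * MvPolynomial.C (evI (f ∘ ι) D * MvPolynomial.aeval f (lm l)) : MvPolynomial Λ L)
        q = 0 := by
  classical
  have hAL : Function.Injective (algebraMap A L) := FaithfulSMul.algebraMap_injective A L
  -- the transcendence basis
  have halg0 : Algebra.IsAlgebraic (Algebra.adjoin A (Set.range f)) L := by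
    refine ⟨fun l => ?_⟩
    obtain ⟨p, q, hq, hl⟩ := hfrac l
    have hmem : ∀ p : MvPolynomial σ A, MvPolynomial.aeval f p ∈ Algebra.adjoin A (Set.range f) := by
      intro p
      rw [Algebra.adjoin_range_eq_range_aeval]
      exact ⟨p, rfl⟩
    refine ⟨C ⟨_, hmem q⟩ * X - C ⟨_, hmem p⟩, ?_, ?_⟩
    · intro h
      have h1 := congrArg (fun r => Polynomial.coeff r 1) h
      simp only [coeff_sub, coeff_C_mul, coeff_X_one, mul_one, coeff_C_succ, sub_zero, coeff_zero] at h1
      exact hq (congrArg Subtype.val h1)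
    · rw [map_sub, map_mul, aeval_C, aeval_X, aeval_C, sub_eq_zero]
      exact hl
  obtain ⟨t, ht, htb⟩ := exists_isTranscendenceBasis_subset (R := A) (Set.range f)
  have hfinI : Finite t := (Set.finite_range f).subset ht
  let finI : Fintype t := Fintype.ofFinite t
  choose ι hι using fun x : t => ht x.2
  have hfι : f ∘ ι = ((↑) : t → L) := funext hι
  rw [← hfι] at htb
  let S := MvPolynomial t A
  let algS : Algebra S L := (evI (f ∘ ι)).toAlgebra
  have hmapS : ∀ p : S, algebraMap S L p = evI (f ∘ ι) p := fun p => rfl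
  have hSinj : Function.Injective (algebraMap S L) := htb.1
  have : FaithfulSMul S L := (faithfulSMul_iff_algebraMap_injective S L).2 hSinj
  have htower : IsScalarTower A S L := IsScalarTower.of_algebraMap_eq fun a => by
    rw [hmapS]
    exact (MvPolynomial.aeval_C (f ∘ ι) a).symm
  -- algebraic
  have halg1 : Algebra.IsAlgebraic S L := by
    have h1 := htb.isAlgebraic
    refine ⟨fun l => ?_⟩
    have h2 : IsAlgebraic (Algebra.adjoin A (Set.range (f ∘ ι))) l := h1.isAlgebraic l
    exact h2.ringHom_of_comp_eq (htb.1.aevalEquiv.symm : _ →+* S) (RingHom.id L)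
      (htb.1.aevalEquiv.symm.injective) (by
        ext y
        obtain ⟨z, rfl⟩ := htb.1.aevalEquiv.surjective y
        simp only [RingHom.comp_apply]
        change algebraMap S L (htb.1.aevalEquiv.symm (htb.1.aevalEquiv z)) = _
        rw [AlgEquiv.symm_apply_apply, hmapS]
        exact (htb.1.algebraMap_aevalEquiv z).symm)
  have hmul : ∀ l : Λ, ∃ b : S, b ≠ 0 ∧ IsIntegral S (algebraMap S L b * MvPolynomial.aeval f (lm l)) := by
    intro l
    obtain ⟨b, hb, hb'⟩ := (halg1.isAlgebraic (MvPolynomial.aeval f (lm l))).exists_integral_multiple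
    refine ⟨b, hb, ?_⟩
    rw [← Algebra.smul_def]
    exact hb'
  choose b hb hbi using hmul
  set D : S := ∏ l, b l with hD
  have hDi : ∀ l, IsIntegral S (algebraMap S L D * MvPolynomial.aeval f (lm l)) := by
    intro l
    have h1 : D = (∏ k ∈ Finset.univ.erase l, b k) * b l := by
      rw [hD, mul_comm]
      exact (Finset.mul_prod_erase _ _ (Finset.mem_univ l)).symm
    rw [h1, map_mul, mul_assoc]
    exact isIntegral_algebraMap.mul (hbi l)
  have key : (MvPolynomial.map (σ := Λ) (algebraMap S L)).IsIntegralElem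
      (∑ l, MvPolynomial.X l * MvPolynomial.C (algebraMap S L D * MvPolynomial.aeval f (lm l))) := by
    refine Finset.sum_induction _ _ (fun a b ha hb => ha.add _ hb) ⟨X, monic_X, by simp⟩ fun l _ => ?_
    refine RingHom.IsIntegralElem.mul _ ?_ (integral_C _ (hDi l))
    have h1 : (MvPolynomial.X l : MvPolynomial Λ L) = MvPolynomial.map (algebraMap S L) (MvPolynomial.X l) := by
      simp
    rw [h1]
    exact RingHom.isIntegralElem_map _
  obtain ⟨q, hq, hq0⟩ := key
  exact ⟨t, finI, inferInstance, ι, D, q, htb.1, Finset.prod_ne_zero_iff.2 fun l _ => hb l, hq, hq0⟩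

end Pool.Agent.N207.GS
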