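import Pool.Agent.Y890.MV.Main

/-!
# Points at which a given polynomial in the functions vanishes without vanishing identically

`𝒢` is a polynomial in the functions whose coefficients are polynomials in the coordinates and in variables
`P l = ∑ ξ i c_{l,i}`.
-/

set_option autoImplicit false
set_option linter.unusedSectionVars false

open NumberField

namespace Pool.Agent.N207.GS

open Pool.Agent.Y890.MV Pool.Agent.Y890.SP
open Pool.Agent.Y124 (Cov RelK)

/-- the specialized polynomial -/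
noncomputable def spc {X I Λ : Type} (𝒢 : MvPolynomial I (MvPolynomial Λ (MvPolynomial X ℂ))) (t : X → ℂ)
    (P : Λ → ℂ) : MvPolynomial I ℂ :=
  MvPolynomial.map (MvPolynomial.eval₂Hom (MvPolynomial.eval t) P) 𝒢

/-- the points at which the specialized polynomial vanishes at the values of the functions, but not identically -/
def BadG {X I Λ h : Type} [Fintype h] (𝒢 : MvPolynomial I (MvPolynomial Λ (MvPolynomial X ℂ)))
    (y : I → (X → ℂ) → ℂ) (Lc : Set (X → ℂ)) (K : Type) [Field K] [NumberField K] (io : K →+* ℂ) (ξ : h → ℂ)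
    (A T : ℝ) : Set (X → K) :=
  {s | (∀ i, Y120.HtLe K T (s i)) ∧ (fun i => io (s i)) ∈ Lc ∧ ∃ c : Λ → h → 𝓞 K,
    (∀ l i (φ : K →+* ℂ), ‖φ (c l i : K)‖ ≤ T ^ A) ∧
    spc 𝒢 (fun i => io (s i)) (fun l => ∑ i, ξ i * io (c l i : K)) ≠ 0 ∧
    MvPolynomial.eval (fun i => y i (fun i => io (s i)))
      (spc 𝒢 (fun i => io (s i)) (fun l => ∑ i, ξ i * io (c l i : K))) = 0}

/-- **Counting.** -/
theorem count {X I Λ : Type} [Fintype X] [DecidableEq X] [Nonempty X] [Fintype I] [DecidableEq I] [Fintype Λ]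
    [DecidableEq Λ] (𝒢 : MvPolynomial I (MvPolynomial Λ (MvPolynomial X ℂ))) (y : I → (X → ℂ) → ℂ)
    (Lc : Set (X → ℂ)) (hLc : IsCompact Lc) (han : ∀ i, ∀ t ∈ Lc, AnalyticAt ℂ (y i) t)
    (hind : ∀ t ∈ Lc, LocIndM y t) (h : Type) [Fintype h] [DecidableEq h] (m : ℕ) (A ε : ℝ) (hε : 0 < ε) :
    ∃ (D : ℕ) (C T₀ : ℝ), 0 ≤ C ∧ 2 ≤ T₀ ∧
      ∀ (K : Type) [Field K] [NumberField K], Module.finrank ℚ K ≤ m → ∀ (io : K →+* ℂ) (ξ : h → ℂ) (T : ℝ),
        T₀ ≤ T → Cov D ⌊C * T ^ ε⌋₊ ((fun (s : X → K) i => io (s i)) '' BadG 𝒢 y Lc K io ξ A T) := by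
  classical
  set J : ℕ := ∑ α ∈ 𝒢.support, ∑ ν ∈ (𝒢.coeff α).support, ((𝒢.coeff α).coeff ν).totalDegree with hJ
  have hJ' : ∀ α ν, ((𝒢.coeff α).coeff ν).totalDegree ≤ J := by
    intro α ν
    by_cases hα : α ∈ 𝒢.support
    · by_cases hν : ν ∈ (𝒢.coeff α).support
      · have h1 := Finset.single_le_sum (f := fun ν => ((𝒢.coeff α).coeff ν).totalDegree)
          (fun _ _ => Nat.zero_le _) hν
        exact h1.trans (Finset.single_le_sum
          (f := fun α => ∑ ν ∈ (𝒢.coeff α).support, ((𝒢.coeff α).coeff ν).totalDegree) (fun _ _ => Nat.zero_le _) hα)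
      · rw [MvPolynomial.notMem_support_iff.1 hν]
        simp
    · rw [MvPolynomial.notMem_support_iff.1 hα]
      simp
  set dd := 𝒢.totalDegree with hdd
  set G' : ℕ := J + ∑ α ∈ 𝒢.support, (𝒢.coeff α).totalDegree with hG'
  have hG'' : ∀ (ξ : h → ℂ) α, (hmgM ξ J (𝒢.coeff α)).totalDegree ≤ G' := by
    intro ξ α
    refine (hmgM_degree ξ J _ (hJ' α)).trans ?_
    refine Nat.add_le_add_left ?_ J
    by_cases hα : α ∈ 𝒢.support
    · exact Finset.single_le_sum (f := fun α => (𝒢.coeff α).totalDegree) (fun _ _ => Nat.zero_le _) hα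
    · rw [MvPolynomial.notMem_support_iff.1 hα]
      simp
  let W := Option X ⊕ (Λ × h)
  let h' := (I → Fin (dd + 1)) × (W → Fin (G' + 1))
  set q : ℕ := Fintype.card X with hq
  set A₁ := max A (q : ℝ) with hA₁
  set A' : ℝ := A₁ * (Fintype.card W * G' : ℕ) with hA'
  obtain ⟨DD, B, C, T₀, hC, hT₀, H⟩ := nfM stmZ stmClose stmCharts m y Lc hLc han hind h' dd A' ε hε
  refine ⟨DD, C, T₀, hC, hT₀, ?_⟩
  intro K _ _ hm io ξ T hT
  have hT1 : 1 ≤ T := by linarith
  have hTp : 0 < T := by linarith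
  let ξ' : h' → ℂ := fun p => (hmgM ξ J (𝒢.coeff (ex p.1))).coeff (ex p.2)
  have hcov := H K hm io ξ' T hT
  set E := {t : X → ℂ | t ∈ Lc ∧ ∃ s : X → K,
      (∀ i, Y120.HtLe K T (s i)) ∧ (t = fun i => io (s i)) ∧
        RelK K io ξ' (fun l : I → Fin (dd + 1) => ∏ i, y i t ^ (l i : ℕ)) (T ^ A') (T ^ (-B))} with hE
  have hsub : (fun (s : X → K) i => io (s i)) '' BadG 𝒢 y Lc K io ξ A T ⊆ E := by
    rintro _ ⟨s, ⟨hs1, hs2, c, hc1, h𝓡0, h𝓡v⟩, rfl⟩
    set t : X → ℂ := fun i => io (s i) with ht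
    refine ⟨hs2, s, hs1, rfl, ?_⟩
    choose a b hb ha1 hb1 hab using id hs1
    set φ : MvPolynomial X ℂ →+* ℂ := MvPolynomial.eval t with hφ
    set P : Λ → ℂ := fun l => ∑ i, ξ i * io (c l i : K) with hP
    set 𝓡 : MvPolynomial I ℂ := spc 𝒢 t P with h𝓡
    have h𝓡G : 𝓡 = MvPolynomial.map (MvPolynomial.eval₂Hom φ P) 𝒢 := rfl
    -- the integral coordinates
    let bb : 𝓞 K := ∏ i, b i
    let aa : X → 𝓞 K := fun i => a i * ∏ j ∈ Finset.univ.erase i, b j
    let zK : W → 𝓞 K := Sum.elim (fun o => o.elim bb aa) (fun p => c p.1 p.2)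
    let w : W → ℂ := fun t => io (zK t : K)
    have hwb : w (Sum.inl none) = io (bb : K) := rfl
    have hwa : ∀ i, w (Sum.inl (some i)) = io (aa i : K) := fun i => rfl
    have hbb : bb ≠ 0 := Finset.prod_ne_zero_iff.2 fun i _ => hb i
    have hb0 : io (bb : K) ≠ 0 := by
      rw [Ne, map_eq_zero]
      exact_mod_cast hbb
    have hsw : ∀ i, t i = w (Sum.inl (some i)) / w (Sum.inl none) := by
      intro i
      rw [hwa, hwb, ht]
      simp only
      rw [eq_div_iff hb0, ← map_mul]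
      congr 1
      have h1 : (bb : K) = (b i : K) * ∏ j ∈ Finset.univ.erase i, (b j : K) := by
        have h2 : bb = b i * ∏ j ∈ Finset.univ.erase i, b j := (Finset.mul_prod_erase _ _ (Finset.mem_univ i)).symm
        rw [h2]
        simp
      have h3 : (aa i : K) = (a i : K) * ∏ j ∈ Finset.univ.erase i, (b j : K) := by
        simp [aa]
      have h4 : (b i : K) ≠ 0 := by exact_mod_cast hb i
      rw [h1, h3, hab i]
      field_simp
    have hval : ∀ α : I →₀ ℕ, io (bb : K) ^ J * 𝓡.coeff α = MvPolynomial.eval w (hmgM ξ J (𝒢.coeff α)) := by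
      intro α
      rw [hmgM_eval ξ J _ (fun ν => hJ' α ν) w (by rw [hwb]; exact hb0), hwb, h𝓡G, MvPolynomial.coeff_map]
      congr 1
      have h1 : (fun i => w (Sum.inl (some i)) / io (bb : K)) = t := by
        funext i
        rw [hsw i, hwb]
      rw [h1]
      rfl
    let P' : MvPolynomial I ℂ := MvPolynomial.C (io (bb : K) ^ J) * 𝓡
    have hcoef : ∀ s₁ : I →₀ ℕ, P'.coeff s₁ = io (bb : K) ^ J * 𝓡.coeff s₁ := by
      intro s₁
      rw [MvPolynomial.coeff_C_mul]
    have hzKb : ∀ (o : W) (ψ : K →+* ℂ), ‖ψ (zK o : K)‖ ≤ T ^ A₁ := by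
      have hTq : T ^ q ≤ T ^ A₁ := by
        rw [← Real.rpow_natCast]
        exact Real.rpow_le_rpow_of_exponent_le hT1 (le_max_right _ _)
      have hbn : ∀ i (ψ : K →+* ℂ), ‖ψ (b i : K)‖ ≤ T := fun i ψ => (Y120.house_ge K _ ψ).trans (hb1 i)
      have han : ∀ i (ψ : K →+* ℂ), ‖ψ (a i : K)‖ ≤ T := fun i ψ => (Y120.house_ge K _ ψ).trans (ha1 i)
      rintro ((_ | i) | ⟨l, i⟩) ψ
      · refine le_trans ?_ hTq
        change ‖ψ ((bb : 𝓞 K) : K)‖ ≤ T ^ q
        have h1 : ψ ((bb : 𝓞 K) : K) = ∏ i, ψ (b i : K) := by simp [bb, map_prod]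
        rw [h1, norm_prod]
        calc ∏ i, ‖ψ (b i : K)‖ ≤ ∏ _i : X, T := Finset.prod_le_prod (fun _ _ => norm_nonneg _) fun i _ => hbn i ψ
          _ = T ^ q := by rw [Finset.prod_const, Finset.card_univ]
      · refine le_trans ?_ hTq
        change ‖ψ ((aa i : 𝓞 K) : K)‖ ≤ T ^ q
        have h1 : ψ ((aa i : 𝓞 K) : K) = ψ (a i : K) * ∏ j ∈ Finset.univ.erase i, ψ (b j : K) := by
          simp [aa, map_prod]
        rw [h1, norm_mul, norm_prod]
        calc ‖ψ (a i : K)‖ * ∏ j ∈ Finset.univ.erase i, ‖ψ (b j : K)‖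
            ≤ T * ∏ _j ∈ Finset.univ.erase i, T :=
              mul_le_mul (han i ψ) (Finset.prod_le_prod (fun _ _ => norm_nonneg _) fun j _ => hbn j ψ)
                (Finset.prod_nonneg fun _ _ => norm_nonneg _) hTp.le
          _ = ∏ _j : X, T := Finset.mul_prod_erase Finset.univ (fun _ : X => T) (Finset.mem_univ i)
          _ = T ^ q := by rw [Finset.prod_const, Finset.card_univ]
      · exact (hc1 l i ψ).trans (Real.rpow_le_rpow_of_exponent_le hT1 (le_max_left _ _))
    have hP'0 : P' ≠ 0 := by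
      refine mul_ne_zero ?_ h𝓡0
      rw [Ne, MvPolynomial.C_eq_zero]
      exact pow_ne_zero _ hb0
    obtain ⟨s₀, hs₀⟩ := MvPolynomial.ne_zero_iff.1 hP'0
    refine relK_of_poly1 K io ξ' (fun i => y i t) (T ^ A') (T ^ (-B)) P' ?_ ?_ s₀ hs₀ ?_
    · intro x
      refine (MvPolynomial.degreeOf_le_totalDegree _ _).trans ?_
      refine (MvPolynomial.totalDegree_mul _ _).trans ?_
      rw [MvPolynomial.totalDegree_C, zero_add, h𝓡G, hdd]
      exact Finset.sup_mono (MvPolynomial.support_map_subset _ _)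
    · intro α₀
      by_cases hα : ∃ α : I → Fin (dd + 1), ex α = α₀
      · obtain ⟨α, hα⟩ := hα
        refine ⟨fun p => if p.1 = α then ∏ t, zK t ^ (p.2 t : ℕ) else 0, ?_, ?_⟩
        · rintro ⟨α', γ⟩ ψ
          by_cases hαα : α' = α
          · simp only [hαα, if_true]
            have hT' : 1 ≤ T ^ A₁ := Real.one_le_rpow hT1 (by
              rw [hA₁]
              exact le_trans (Nat.cast_nonneg _) (le_max_right _ _))
            have h1 := norm_prod_le G' γ (fun t => ψ (zK t : K)) (T ^ A₁) hT' (fun o => hzKb o ψ)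
            have h3 : ψ ((∏ t, zK t ^ (γ t : ℕ) : 𝓞 K) : K) = ∏ t, ψ (zK t : K) ^ (γ t : ℕ) := by
              simp [map_prod]
            rw [h3]
            refine h1.trans (le_of_eq ?_)
            rw [hA', Real.rpow_mul (by linarith), Real.rpow_natCast]
          · simp only [hαα, if_false]
            simp
            positivity
        · rw [hcoef, ← hα, hval, eval_box _ G' (hG'' ξ _) w, Fintype.sum_prod_type, Finset.sum_eq_single α]
          · refine Finset.sum_congr rfl fun γ _ => ?_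
            have h3 : io ((∏ t, zK t ^ (γ t : ℕ) : 𝓞 K) : K) = ∏ t, io (zK t : K) ^ (γ t : ℕ) := by
              simp [map_prod]
            simp only [if_true, ξ']
            congr 1
            exact h3.symm
          · intro α' _ hα'
            refine Finset.sum_eq_zero fun γ _ => ?_
            simp [hα']
          · simp
      · refine ⟨fun _ => 0, ?_, ?_⟩
        · intro _ ψ
          simp
          positivity
        · have h1 : 𝒢.coeff α₀ = 0 := by
            have h2 := box_of_le 𝒢 (le_refl dd)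
            rw [← h2, box, MvPolynomial.coeff_sum]
            refine Finset.sum_eq_zero fun α _ => ?_
            rw [MvPolynomial.coeff_monomial, if_neg fun hh => hα ⟨α, hh⟩]
          rw [hcoef, h𝓡G, MvPolynomial.coeff_map, h1]
          simp
    · have h1 : MvPolynomial.aeval (fun i : I => y i t) P' = 0 := by
        rw [map_mul]
        have h2 : MvPolynomial.aeval (fun i : I => y i t) 𝓡 = MvPolynomial.eval (fun i => y i t) 𝓡 := rfl
        rw [h2, h𝓡v, mul_zero]
      rw [h1, norm_zero]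
      positivity
  exact hcov.mono le_rfl le_rfl hsub

end Pool.Agent.N207.GS
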