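import Pool.Agent.N207.GS.Comp

/-!
# All degrees, heights and number fields at once
-/

set_option autoImplicit false
set_option linter.unusedSectionVars false

open NumberField Filter

namespace Pool.Agent.N207.GS

open Pool.Agent.Y890.MV
open Pool.Agent.Y890.SP (exists_omega)
open Pool.Agent.Y124 (Cov)

/-- few points: the sets `E` of points over number fields lie on few hypersurfaces and have few elements -/
def Few {X : Type} [Fintype X] (E : (K : Type) → [Field K] → [NumberField K] → (K →+* ℂ) → (k : ℕ) →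
    (Fin k → ℂ) → ℝ → Set (X → K)) : Prop :=
  ∃ (ω : ℝ → ℕ) (T₀ : ℝ), Tendsto ω atTop atTop ∧ Monotone ω ∧ ∀ T, T₀ ≤ T → 0 < ω T ∧
    ∀ (K : Type) [Field K] [NumberField K], Module.finrank ℚ K ≤ ω T → ∀ (io : K →+* ℂ) (ξ : Fin (ω T) → ℂ),
      Cov ⌊T ^ ((ω T : ℝ)⁻¹)⌋₊ ⌊T ^ ((ω T : ℝ)⁻¹)⌋₊ ((fun (s : X → K) j => io (s j)) '' E K io (ω T) ξ T) ∧
      (E K io (ω T) ξ T).Finite ∧
      ((E K io (ω T) ξ T).ncard : ℝ) ≤
        T ^ ((ω T : ℝ)⁻¹) * ({x : K | Y120.HtLe K T x}.ncard : ℝ) ^ (Fintype.card X - 1)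

theorem Few.mono {X : Type} [Fintype X] {E E' : (K : Type) → [Field K] → [NumberField K] → (K →+* ℂ) →
    (k : ℕ) → (Fin k → ℂ) → ℝ → Set (X → K)} (h : Few E)
    (hs : ∀ (K : Type) [Field K] [NumberField K] (io : K →+* ℂ) (k : ℕ) (ξ : Fin k → ℂ) (T : ℝ),
      E' K io k ξ T ⊆ E K io k ξ T) : Few E' := by
  obtain ⟨ω, T₀, h1, h2, h3⟩ := h
  refine ⟨ω, T₀, h1, h2, fun T hT => ⟨(h3 T hT).1, fun K _ _ hK io ξ => ?_⟩⟩
  obtain ⟨h4, h5, h6⟩ := (h3 T hT).2 K hK io ξ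
  refine ⟨h4.mono le_rfl le_rfl (Set.image_mono (hs K io _ ξ T)), h5.subset (hs K io _ ξ T), le_trans ?_ h6⟩
  exact_mod_cast Set.ncard_le_ncard (hs K io _ ξ T) h5

/-- passage from fixed parameters to growing parameters -/
theorem few_of {X : Type} [Fintype X] [DecidableEq X] [Nonempty X]
    (E : (K : Type) → [Field K] → [NumberField K] → (K →+* ℂ) → (k : ℕ) → (Fin k → ℂ) → ℝ → Set (X → K))
    (hht : ∀ (K : Type) [Field K] [NumberField K] (io : K →+* ℂ) (k : ℕ) (ξ : Fin k → ℂ) (T : ℝ),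
      ∀ s ∈ E K io k ξ T, ∀ j, Y120.HtLe K T (s j))
    (H : ∀ (k : ℕ) (ε : ℝ), 0 < k → 0 < ε → ∃ (D : ℕ) (C T₀ : ℝ), 0 ≤ C ∧ 2 ≤ T₀ ∧
      ∀ (K : Type) [Field K] [NumberField K], Module.finrank ℚ K ≤ k → ∀ (io : K →+* ℂ) (ξ : Fin k → ℂ) (T : ℝ),
        T₀ ≤ T → Cov D ⌊C * T ^ ε⌋₊ ((fun (s : X → K) i => io (s i)) '' E K io k ξ T)) : Few E := by
  classical
  let S : ℕ → ℝ → Prop := fun k T => ∀ (K : Type) [Field K] [NumberField K], Module.finrank ℚ K ≤ k →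
    ∀ (io : K →+* ℂ) (ξ : Fin k → ℂ),
      Cov ⌊T ^ ((k : ℝ)⁻¹)⌋₊ ⌊T ^ ((k : ℝ)⁻¹)⌋₊ ((fun (s : X → K) j => io (s j)) '' E K io k ξ T) ∧
        (E K io k ξ T).Finite ∧
        ((E K io k ξ T).ncard : ℝ) ≤
          T ^ ((k : ℝ)⁻¹) * ({x : K | Y120.HtLe K T x}.ncard : ℝ) ^ (Fintype.card X - 1)
  refine exists_omega S fun k => ?_
  set κ : ℝ := ((k + 1 : ℕ) : ℝ)⁻¹ with hκ
  have hκ0 : 0 < κ := by positivity
  obtain ⟨D, C, T₀, hC, hT₀, H⟩ := H (k + 1) (κ / 3) (Nat.succ_pos k) (by positivity)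
  -- constants are powers of `T`
  have hpow : ∀ C : ℝ, 0 ≤ C → ∃ T₁ : ℝ, ∀ T, 1 ≤ T → T₁ ≤ T → C ≤ T ^ (κ / 3) := by
    intro C hC
    refine ⟨C ^ (3 * (k + 1)), fun T hT hT1 => ?_⟩
    have h4 : C = (C ^ (3 * (k + 1))) ^ (κ / 3) := by
      rw [← Real.rpow_natCast, ← Real.rpow_mul hC]
      have : ((3 * (k + 1) : ℕ) : ℝ) * (κ / 3) = 1 := by
        rw [hκ]
        push_cast
        have : ((k : ℝ) + 1) ≠ 0 := by positivity
        field_simp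
      rw [this, Real.rpow_one]
    rw [h4]
    exact Real.rpow_le_rpow (by positivity) hT1 (by positivity)
  obtain ⟨T₁, hT₁⟩ := hpow C hC
  obtain ⟨T₂, hT₂⟩ := hpow D (Nat.cast_nonneg _)
  refine ⟨max T₀ (max T₁ T₂), fun T hT K _ _ hK io ξ => ?_⟩
  have h0 : T₀ ≤ T := (le_max_left _ _).trans hT
  have h1 : T₁ ≤ T := ((le_max_left _ _).trans (le_max_right _ _)).trans hT
  have h2 : T₂ ≤ T := ((le_max_right _ _).trans (le_max_right _ _)).trans hT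
  have hT1 : 1 ≤ T := by linarith
  have hTp : 0 < T := by linarith
  have h3 := hT₁ T hT1 h1
  have h4 := hT₂ T hT1 h2
  have hcov := H K hK io ξ T h0
  have h5 : T ^ (κ / 3) * T ^ (κ / 3) ≤ T ^ κ := by
    rw [← Real.rpow_add hTp]
    exact Real.rpow_le_rpow_of_exponent_le hT1 (by linarith)
  have h6 : T ^ (κ / 3) ≤ T ^ κ := Real.rpow_le_rpow_of_exponent_le hT1 (by linarith)
  have hm : C * T ^ (κ / 3) ≤ T ^ (κ / 3) * T ^ (κ / 3) := mul_le_mul_of_nonneg_right h3 (by positivity)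
  refine ⟨hcov.mono ?_ ?_ (Set.Subset.refl _), ?_⟩
  · exact Nat.le_floor (h4.trans h6)
  · exact Nat.floor_mono (hm.trans h5)
  obtain ⟨h7, h8⟩ := cov_count io {x : K | Y120.HtLe K T x} (Y120.HtLe_fin K T) _
    (fun s hs => hht K io _ ξ T s hs) hcov
  refine ⟨h7, ?_⟩
  have h9 : ((⌊C * T ^ (κ / 3)⌋₊ : ℕ) : ℝ) ≤ T ^ (κ / 3) * T ^ (κ / 3) :=
    (Nat.floor_le (by positivity)).trans hm
  have h10 : ((E K io (k + 1) ξ T).ncard : ℝ) ≤
      (⌊C * T ^ (κ / 3)⌋₊ : ℝ) * (D * ({x : K | Y120.HtLe K T x}.ncard : ℝ) ^ (Fintype.card X - 1)) := by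
    exact_mod_cast h8
  refine h10.trans ?_
  rw [← mul_assoc]
  refine mul_le_mul_of_nonneg_right ?_ (by positivity)
  calc (⌊C * T ^ (κ / 3)⌋₊ : ℝ) * (D : ℝ) ≤ (T ^ (κ / 3) * T ^ (κ / 3)) * T ^ (κ / 3) :=
        mul_le_mul h9 h4 (Nat.cast_nonneg _) (by positivity)
    _ = T ^ κ := by
        rw [← Real.rpow_add hTp, ← Real.rpow_add hTp]
        congr 1
        ring

/-- **The relations at almost all points hold on the irreducible subsets of the fibre through the point, all degrees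
and heights at once.** -/
theorem comp_few {X σ : Type} [Fintype X] [DecidableEq X] [Nonempty X] [Fintype σ] [DecidableEq σ] {U : Set (X → ℂ)}
    {f : σ → (X → ℂ) → ℂ} (hU : IsPreconnected U) (hUo : IsOpen U) (hne : U.Nonempty)
    (hf : ∀ i, AnalyticOnNhd ℂ (f i) U) :
    Few (X := X) fun K _ _ io k ξ T => ExcI k U f (InnerM U k) K io ξ k T := by
  refine few_of _ (fun K _ _ io k ξ T s hs => hs.1) fun k ε hk hε => ?_
  exact comp hU hUo hne hf (InnerM U k) (innerM_compact _ _) (innerM_sub _ hk) k (Fin k) k k ε hε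

end Pool.Agent.N207.GS
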